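import Pool.Agent.MP_b30265_an.Th.PartC

open Pool.Agent.MP_b30265_an

/-- For strictly increasing positive frequencies, each dividing the next apart from indices where
the cubes of the ratios are summable, phase invariance of absolute continuity holds exactly when
the cubes of all ratios `lam n / lam (n + 1)` are summable, and exactly then absolute continuity
is decided by the explicit series. -/
theorem Pool.Agent.Results.MP_b30265_an.CubicThreshold.result (lam : ℕ → ℕ) (h0 : 0 < lam 0)
    (hl : StrictMono lam)
    (hd : Summable fun n =>
      if lam n ∣ lam (n + 1) then 0 else ((lam n : ℝ) / lam (n + 1)) ^ 3) :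
    List.TFAE [PhaseInvariant lam, Summable fun n => ((lam n : ℝ) / lam (n + 1)) ^ 3,
      ExplicitCriterion lam] :=
  Th.threshold lam h0 hl hd
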