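import Pool.Agent.Mg.Fb30265.G7fb764

open MeasureTheory Real Pool.Agent.MP_b30265_an

/-- For the frequencies `3 ^ n` there are coefficients `a`, `b` in the open unit disc and real
phases `φ` such that the Riesz products without phases are mutually absolutely continuous while
the Riesz products with phases `φ` are mutually singular. -/
theorem Pool.Agent.Results.MP_b30265_an.PhaseCounterexample.result :
    ∃ (a b : ℕ → ℂ) (φ : ℕ → ℝ) (μa μb νa νb : Measure (AddCircle (2 * π))),
      (∀ n, ‖a n‖ < 1) ∧ (∀ n, ‖b n‖ < 1) ∧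
      IsRieszProduct (fun n => 3 ^ n) a 0 μa ∧ IsRieszProduct (fun n => 3 ^ n) b 0 μb ∧
      IsRieszProduct (fun n => 3 ^ n) a φ νa ∧ IsRieszProduct (fun n => 3 ^ n) b φ νb ∧
      μa ≪ μb ∧ μb ≪ μa ∧ νa ⟂ₘ νb ∧ ¬ νa ≪ νb :=
  Pool.Agent.MP_b30265_an.main
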